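import Pool.Agent.H44.Dom2.Final

/-!
# Fractional domatic number of large-girth graphs of minimum degree two: `L ≤ 5/2`

Take a random list of `m` edges of type 1 and `m` edges of type 2 on `N` branch vertices; subdivide
the edges of type 1 once and those of type 2 twice, and subdivide `g` times the few edges that lie
in short dense configurations (and a loop at each branch vertex). In a dominating
`(a:b)`-colouring let `A c` be the set of branch vertices with colour `c` and
`α c = |A c| / N`. The edges of type 1 give `b ≥ ∑ c ((1 - α c) ^ 2 - 2 ε)`, the edges of type 2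
give `2 b ≥ ∑ c (1 - α c ^ 2 - 2 ε)`, and `∑ c α c = b`, so `5 b ≥ (2 - 4 ε) a`.
-/

set_option autoImplicit false

namespace Pool.Agent.Results.MP_cc2bbb_co.FiveHalves

open Finset Filter
open Pool.Agent.H44.Dom2

/-- `φ` is a dominating `(a:b)`-colouring of `G`: every vertex gets `b` of the `a` colours, and
every colour class is dominating. -/
def IsDomColouring {V : Type} (G : SimpleGraph V) (a b : ℕ) (φ : V → Finset (Fin a)) : Prop :=
  (∀ v, (φ v).card = b) ∧ ∀ i : Fin a, ∀ v, i ∈ φ v ∨ ∃ u, G.Adj v u ∧ i ∈ φ u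

/-- The fractional domatic number. -/
noncomputable def fdom {V : Type} (G : SimpleGraph V) : ℝ :=
  sSup {x : ℝ | ∃ a b : ℕ, 0 < b ∧ b ≤ a ∧ (∃ φ, IsDomColouring G a b φ) ∧ x = (a : ℝ) / b}

open Classical in
/-- `G` has minimum degree `2` and girth at least `g`. -/
def InClass (g : ℕ) {V : Type} [Fintype V] (G : SimpleGraph V) : Prop :=
  G.minDegree = 2 ∧ (g : ℕ∞) ≤ G.egirth

/-- The infimum of the fractional domatic number over the finite graphs with minimum degree `2` and
girth at least `g`. -/
noncomputable def infFdom (g : ℕ) : ℝ :=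
  sInf {x : ℝ | ∃ (V : Type) (_ : Fintype V) (G : SimpleGraph V), InClass g G ∧ x = fdom G}

lemma one_mem {V : Type} (G : SimpleGraph V) :
    (1 : ℝ) ∈ {x : ℝ | ∃ a b : ℕ, 0 < b ∧ b ≤ a ∧ (∃ φ, IsDomColouring G a b φ) ∧
      x = (a : ℝ) / b} := by
  refine ⟨1, 1, one_pos, le_rfl, ⟨fun _ => univ, ?_, ?_⟩, by norm_num⟩
  · intro v; simp
  · intro i v; exact Or.inl (mem_univ _)

open Classical in
/-- The trivial bound `a ≤ 3 b` at a vertex of degree two. -/
lemma ratio_le_three {V : Type} [Fintype V] (G : SimpleGraph V) (hG : G.minDegree = 2)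
    (a b : ℕ) (hb : 0 < b) (φ : V → Finset (Fin a)) (h : IsDomColouring G a b φ) :
    (a : ℝ) / b ≤ 3 := by
  have hne : Nonempty V := by
    by_contra hne
    rw [not_nonempty_iff] at hne
    rw [SimpleGraph.minDegree_of_subsingleton] at hG
    omega
  obtain ⟨v, hv⟩ := G.exists_minimal_degree_vertex
  rw [hG] at hv
  have h1 : (univ : Finset (Fin a)) ⊆ φ v ∪ (G.neighborFinset v).biUnion φ := by
    intro i _
    rw [mem_union, mem_biUnion]
    rcases h.2 i v with h1 | ⟨u, hu, hi⟩
    · exact Or.inl h1
    · exact Or.inr ⟨u, by rw [SimpleGraph.mem_neighborFinset]; exact hu, hi⟩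
  have h2 := card_le_card h1
  rw [card_univ, Fintype.card_fin] at h2
  have h3 : ((G.neighborFinset v).biUnion φ).card ≤ 2 * b := by
    refine (card_biUnion_le_card_mul _ _ b fun u _ => (h.1 u).le).trans ?_
    rw [SimpleGraph.card_neighborFinset_eq_degree, ← hv]
  have h4 : a ≤ 3 * b := by
    have := card_union_le (φ v) ((G.neighborFinset v).biUnion φ)
    have := h.1 v
    omega
  rw [div_le_iff₀ (by exact_mod_cast hb)]
  exact_mod_cast h4

lemma bdd {V : Type} [Fintype V] (G : SimpleGraph V) (g : ℕ) (hG : InClass g G) :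
    BddAbove {x : ℝ | ∃ a b : ℕ, 0 < b ∧ b ≤ a ∧ (∃ φ, IsDomColouring G a b φ) ∧
      x = (a : ℝ) / b} := by
  refine ⟨3, ?_⟩
  rintro x ⟨a, b, hb, -, ⟨φ, hφ⟩, rfl⟩
  exact ratio_le_three G hG.1 a b hb φ hφ

lemma one_le_fdom {V : Type} [Fintype V] (G : SimpleGraph V) (g : ℕ) (hG : InClass g G) :
    1 ≤ fdom G := le_csSup (bdd G g hG) (one_mem G)

/-- The colouring inequality. -/
theorem colouring {N m g : ℕ} (e : Fin m × Bool → Fin N × Fin N) (ε : ℝ) (hm : 0 < m)
    (hN : 0 < N)
    (h1 : ∀ A : Finset (Fin N), (((Aᶜ.card : ℝ) / N) ^ 2 - ε) * m ≤ cntE e false (Aᶜ ×ˢ Aᶜ))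
    (h2 : ∀ A : Finset (Fin N), (cntE e true (A ×ˢ A) : ℝ) ≤ (((A.card : ℝ) / N) ^ 2 + ε) * m)
    (h3 : ((BadE g e).card : ℝ) ≤ ε * m)
    (a b : ℕ) (φ : SV (Fin N) (kk g e) → Finset (Fin a))
    (hφ : IsDomColouring (SG (kk g e) (en e)) a b φ) :
    (2 - 4 * ε) * a ≤ 5 * b := by
  classical
  have hmR : (0 : ℝ) < m := by exact_mod_cast hm
  have hNR : (0 : ℝ) < N := by exact_mod_cast hN
  set A : Fin a → Finset (Fin N) := fun i => univ.filter fun w => i ∈ φ (.inl w) with hA
  -- double counting the colours of the branch vertices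
  have hsumA : ∑ i : Fin a, ((A i).card : ℝ) = N * b := by
    have h4 : ∑ i : Fin a, (A i).card = ∑ w : Fin N, (φ (.inl w)).card := by
      simp only [hA, card_filter]
      rw [sum_comm]
      apply sum_congr rfl
      intro w _
      rw [← card_filter]
      congr 1
      ext i
      simp
    have h5 : ∑ i : Fin a, (A i).card = N * b := by
      rw [h4, sum_congr rfl (fun w _ => hφ.1 (.inl w))]
      simp
    exact_mod_cast h5
  have hcompl : ∀ i, ((A i)ᶜ.card : ℝ) = N - (A i).card := by
    intro i
    have h4 := card_compl_add_card (A i)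
    rw [Fintype.card_fin] at h4
    have : ((A i)ᶜ.card : ℝ) + (A i).card = N := by exact_mod_cast h4
    linarith
  -- bad indices
  have hbad : ∀ τ : Bool, (((univ.filter fun j : Fin m => (j, τ) ∈ BadE g e).card : ℕ) : ℝ) ≤
      ε * m := by
    intro τ
    refine le_trans ?_ h3
    have : (univ.filter fun j : Fin m => (j, τ) ∈ BadE g e).card ≤ (BadE g e).card := by
      refine card_le_card_of_injOn (fun j => (j, τ)) ?_ ?_
      · intro j hj
        exact (mem_filter.1 (mem_coe.1 hj)).2
      · intro j _ j' _ h
        simpa using h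
    exact_mod_cast this
  -- edges of type 1
  have hT1 : ∑ i : Fin a, (cntE e false ((A i)ᶜ ×ˢ (A i)ᶜ) : ℝ) ≤ m * b + a * (ε * m) := by
    have h4 : ∀ j : Fin m, (∑ i : Fin a, if e (j, false) ∈ (A i)ᶜ ×ˢ (A i)ᶜ then (1 : ℝ) else 0) ≤
        b + a * (if (j, false) ∈ BadE g e then (1 : ℝ) else 0) := by
      intro j
      by_cases hj : (j, false) ∈ BadE g e
      · simp only [hj, if_true]
        have : (∑ i : Fin a, if e (j, false) ∈ (A i)ᶜ ×ˢ (A i)ᶜ then (1 : ℝ) else 0) ≤
            ∑ i : Fin a, (1 : ℝ) := sum_le_sum fun i _ => by split_ifs <;> norm_num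
        rw [sum_const, card_univ, Fintype.card_fin, nsmul_eq_mul] at this
        have hb0 : (0 : ℝ) ≤ b := Nat.cast_nonneg _
        linarith
      · simp only [hj, if_false, mul_zero, add_zero]
        rw [← Finset.natCast_card_filter]
        have hk : kk g e (.inl (j, false)) = 1 := by simp [kk, hj]
        set x : Σ b' : (Fin m × Bool) ⊕ Fin N, Fin (kk g e b') :=
          ⟨.inl (j, false), ⟨0, by omega⟩⟩ with hx
        have h5 : (univ.filter fun i : Fin a => e (j, false) ∈ (A i)ᶜ ×ˢ (A i)ᶜ) ⊆ φ (.inr x) := by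
          intro i hi
          rw [mem_filter, mem_product, mem_compl, mem_compl] at hi
          have h6 : i ∉ φ (.inl (e (j, false)).1) := fun h => hi.2.1 (by simp [hA, h])
          have h7 : i ∉ φ (.inl (e (j, false)).2) := fun h => hi.2.2 (by simp [hA, h])
          rcases hφ.2 i (.inr x) with h8 | ⟨u, hu, hui⟩
          · exact h8
          · exfalso
            rw [adj_iff] at hu
            rcases u with w | y
            · rcases hu with hu | hu
              · have := hu.2
                rw [this] at hui
                exact h6 hui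
              · have := hu.2
                rw [this] at hui
                exact h7 hui
            · rcases hu with hu | hu
              · have h9 := hu.2
                have h10 : x.2.val = 0 := rfl
                omega
              · have h9 := hu.2
                have h10 : kk g e x.1 = kk g e y.1 := congrArg _ hu.1
                have h11 := y.2.2
                have h12 : kk g e x.1 = 1 := hk
                omega
        have h6 := card_le_card h5
        rw [hφ.1] at h6
        exact_mod_cast h6
    have h5 : ∑ i : Fin a, (cntE e false ((A i)ᶜ ×ˢ (A i)ᶜ) : ℝ) =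
        ∑ j : Fin m, ∑ i : Fin a, if e (j, false) ∈ (A i)ᶜ ×ˢ (A i)ᶜ then (1 : ℝ) else 0 := by
      rw [sum_comm]
      exact sum_congr rfl fun i _ => cntE_eq _ _ _
    rw [h5]
    refine (sum_le_sum fun j _ => h4 j).trans ?_
    rw [sum_add_distrib, sum_const, card_univ, Fintype.card_fin, nsmul_eq_mul, ← mul_sum]
    have h6 := hbad false
    rw [Finset.natCast_card_filter] at h6
    have ha0 : (0 : ℝ) ≤ a := Nat.cast_nonneg _
    have := mul_le_mul_of_nonneg_left h6 ha0
    linarith
  -- edges of type 2
  have hT2 : ∑ i : Fin a, ((m : ℝ) - cntE e true (A i ×ˢ A i)) ≤ 2 * (m * b) + a * (ε * m) := by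
    have h4 : ∀ j : Fin m, (∑ i : Fin a, (1 - if e (j, true) ∈ A i ×ˢ A i then (1 : ℝ) else 0)) ≤
        2 * b + a * (if (j, true) ∈ BadE g e then (1 : ℝ) else 0) := by
      intro j
      by_cases hj : (j, true) ∈ BadE g e
      · simp only [hj, if_true]
        have : (∑ i : Fin a, (1 - if e (j, true) ∈ A i ×ˢ A i then (1 : ℝ) else 0)) ≤
            ∑ i : Fin a, (1 : ℝ) := sum_le_sum fun i _ => by split_ifs <;> norm_num
        rw [sum_const, card_univ, Fintype.card_fin, nsmul_eq_mul] at this
        have hb0 : (0 : ℝ) ≤ b := Nat.cast_nonneg _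
        linarith
      · simp only [hj, if_false, mul_zero, add_zero]
        have h5 : ∀ i : Fin a, (1 - if e (j, true) ∈ A i ×ˢ A i then (1 : ℝ) else 0) =
            if ¬ (e (j, true) ∈ A i ×ˢ A i) then (1 : ℝ) else 0 := by
          intro i
          by_cases h : e (j, true) ∈ A i ×ˢ A i
          · rw [if_pos h, if_neg (not_not_intro h)]; norm_num
          · rw [if_neg h, if_pos h]; norm_num
        rw [sum_congr rfl fun i _ => h5 i, ← Finset.natCast_card_filter]
        have hk : kk g e (.inl (j, true)) = 2 := by simp [kk, hj]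
        set x : Σ b' : (Fin m × Bool) ⊕ Fin N, Fin (kk g e b') :=
          ⟨.inl (j, true), ⟨0, by omega⟩⟩ with hx
        set y : Σ b' : (Fin m × Bool) ⊕ Fin N, Fin (kk g e b') :=
          ⟨.inl (j, true), ⟨1, by omega⟩⟩ with hy
        have h6 : (univ.filter fun i : Fin a => ¬ (e (j, true) ∈ A i ×ˢ A i)) ⊆
            φ (.inr x) ∪ φ (.inr y) := by
          intro i hi
          rw [mem_filter, mem_product] at hi
          rw [mem_union]
          by_contra hcon
          push Not at hcon
          apply hi.2
          constructor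
          · rcases hφ.2 i (.inr x) with h8 | ⟨u, hu, hui⟩
            · exact absurd h8 hcon.1
            · rw [adj_iff] at hu
              rcases u with w | z
              · rcases hu with hu | hu
                · have := hu.2
                  rw [this] at hui
                  simp only [hA, mem_filter, mem_univ, true_and]
                  exact hui
                · have h9 := hu.1
                  have h10 : x.2.val = 0 := rfl
                  have h11 : kk g e x.1 = 2 := hk
                  omega
              · rcases hu with hu | hu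
                · have h9 := hu.2
                  have h10 : x.2.val = 0 := rfl
                  omega
                · have h9 : z = y := sig_ext hu.1.symm (by
                    have := hu.2
                    have h10 : x.2.val = 0 := rfl
                    have h11 : y.2.val = 1 := rfl
                    omega)
                  rw [h9] at hui
                  exact absurd hui hcon.2
          · rcases hφ.2 i (.inr y) with h8 | ⟨u, hu, hui⟩
            · exact absurd h8 hcon.2
            · rw [adj_iff] at hu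
              rcases u with w | z
              · rcases hu with hu | hu
                · have h9 := hu.1
                  have h10 : y.2.val = 1 := rfl
                  omega
                · have := hu.2
                  rw [this] at hui
                  simp only [hA, mem_filter, mem_univ, true_and]
                  exact hui
              · rcases hu with hu | hu
                · have h9 : z = x := sig_ext hu.1.symm (by
                    have := hu.2
                    have h10 : x.2.val = 0 := rfl
                    have h11 : y.2.val = 1 := rfl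
                    omega)
                  rw [h9] at hui
                  exact absurd hui hcon.1
                · have h9 := hu.2
                  have h10 : kk g e y.1 = kk g e z.1 := congrArg _ hu.1
                  have h11 := z.2.2
                  have h12 : kk g e y.1 = 2 := hk
                  have h13 : y.2.val = 1 := rfl
                  omega
        have h7 := card_le_card h6
        have h8 := card_union_le (φ (.inr x)) (φ (.inr y))
        rw [hφ.1, hφ.1] at h8
        have h9 : (univ.filter fun i : Fin a => ¬ (e (j, true) ∈ A i ×ˢ A i)).card ≤ 2 * b := by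
          omega
        exact_mod_cast h9
    have h5 : ∑ i : Fin a, ((m : ℝ) - cntE e true (A i ×ˢ A i)) =
        ∑ j : Fin m, ∑ i : Fin a, (1 - if e (j, true) ∈ A i ×ˢ A i then (1 : ℝ) else 0) := by
      rw [sum_comm]
      apply sum_congr rfl
      intro i _
      rw [cntE_eq, sum_sub_distrib]
      simp
    rw [h5]
    refine (sum_le_sum fun j _ => h4 j).trans ?_
    rw [sum_add_distrib, sum_const, card_univ, Fintype.card_fin, nsmul_eq_mul, ← mul_sum]
    have h6 := hbad true
    rw [Finset.natCast_card_filter] at h6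
    have ha0 : (0 : ℝ) ≤ a := Nat.cast_nonneg _
    have := mul_le_mul_of_nonneg_left h6 ha0
    linarith
  -- combine
  have hT : ∀ i : Fin a, (2 - 2 * ((A i).card : ℝ) / N - 2 * ε) * m ≤
      cntE e false ((A i)ᶜ ×ˢ (A i)ᶜ) + ((m : ℝ) - cntE e true (A i ×ˢ A i)) := by
    intro i
    have h4 := h1 (A i)
    have h5 := h2 (A i)
    rw [hcompl] at h4
    have h6 : (2 - 2 * ((A i).card : ℝ) / N - 2 * ε) * m =
        (((N - (A i).card : ℝ) / N) ^ 2 - ε) * m + (m - (((A i).card : ℝ) / N) ^ 2 * m - ε * m) := by
      field_simp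
      ring
    rw [h6]
    linarith
  have hsum := sum_le_sum fun i (_ : i ∈ (univ : Finset (Fin a))) => hT i
  rw [sum_add_distrib] at hsum
  have h7 : ∑ i : Fin a, (2 - 2 * ((A i).card : ℝ) / N - 2 * ε) * m =
      (2 * a - 2 * b - 2 * ε * a) * m := by
    rw [← sum_mul]
    congr 1
    rw [sum_sub_distrib, sum_sub_distrib, sum_const, sum_const, card_univ, Fintype.card_fin,
      nsmul_eq_mul, nsmul_eq_mul, ← sum_div, ← mul_sum, hsumA]
    field_simp
  rw [h7] at hsum
  have h8 : (2 * a - 2 * b - 2 * ε * a) * m ≤ (3 * b + 2 * ε * a) * (m : ℝ) := by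
    calc _ ≤ _ := hsum
      _ ≤ (m * b + a * (ε * m)) + (2 * (m * b) + a * (ε * m)) := add_le_add hT1 hT2
      _ = _ := by ring
  have h9 := le_of_mul_le_mul_right h8 hmR
  linarith

/-- For every `g` and `δ > 0` some graph with minimum degree `2` and girth at least `g` has
fractional domatic number at most `5/2 + δ`. -/
theorem exists_graph (g : ℕ) (δ : ℝ) (hδ : 0 < δ) :
    ∃ (V : Type) (_ : Fintype V) (G : SimpleGraph V), InClass g G ∧ fdom G ≤ 5 / 2 + δ := by
  obtain ⟨ε, hε0, hε1, hε2⟩ : ∃ ε : ℝ, 0 < ε ∧ ε ≤ 1 / 4 ∧ 5 ≤ (2 - 4 * ε) * (5 / 2 + δ) := by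
    refine ⟨min (1 / 4) (δ / (4 * (5 / 2 + δ))), ?_, min_le_left _ _, ?_⟩
    · apply lt_min (by norm_num)
      positivity
    · have h1 : min (1 / 4) (δ / (4 * (5 / 2 + δ))) ≤ δ / (4 * (5 / 2 + δ)) := min_le_right _ _
      have h2 : min (1 / 4) (δ / (4 * (5 / 2 + δ))) * (4 * (5 / 2 + δ)) ≤ δ := by
        rw [le_div_iff₀ (by positivity)] at h1
        exact h1
      nlinarith
  obtain ⟨N, m, e, hm, hgN, hN, h1, h2, h3⟩ := exists_e ε hε0 (by linarith) (g + 3)
  refine ⟨SV (Fin N) (kk (g + 3) e), inferInstance, SG (kk (g + 3) e) (en e), ⟨?_, ?_⟩, ?_⟩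
  · have := minDeg e (by omega : 2 ≤ g + 3) hN
    convert this
  · refine le_trans ?_ (girth_ge e hgN)
    exact_mod_cast Nat.le_add_right g 3
  · apply csSup_le ⟨1, one_mem _⟩
    rintro x ⟨a, b, hb, -, ⟨φ, hφ⟩, rfl⟩
    have h4 := colouring e ε hm hN h1 h2 h3 a b φ hφ
    have hbR : (0 : ℝ) < b := by exact_mod_cast hb
    rw [div_le_iff₀ hbR]
    have h5 : (0 : ℝ) < 2 - 4 * ε := by linarith
    have h6 : (2 - 4 * ε) * a ≤ (2 - 4 * ε) * ((5 / 2 + δ) * b) := by
      calc (2 - 4 * ε) * a ≤ 5 * b := h4
        _ ≤ ((2 - 4 * ε) * (5 / 2 + δ)) * b := mul_le_mul_of_nonneg_right hε2 hbR.le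
        _ = _ := by ring
    exact le_of_mul_le_mul_left h6 h5

lemma set_bdd (g : ℕ) : BddBelow {x : ℝ | ∃ (V : Type) (_ : Fintype V) (G : SimpleGraph V),
    InClass g G ∧ x = fdom G} := by
  refine ⟨1, ?_⟩
  rintro x ⟨V, _, G, hG, rfl⟩
  exact one_le_fdom G g hG

lemma set_nonempty (g : ℕ) : {x : ℝ | ∃ (V : Type) (_ : Fintype V) (G : SimpleGraph V),
    InClass g G ∧ x = fdom G}.Nonempty := by
  obtain ⟨V, hV, G, hG, -⟩ := exists_graph g 1 one_pos
  exact ⟨_, V, hV, G, hG, rfl⟩

theorem infFdom_le (g : ℕ) : infFdom g ≤ 5 / 2 := by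
  apply le_of_forall_pos_le_add
  intro δ hδ
  obtain ⟨V, hV, G, hG, h⟩ := exists_graph g δ hδ
  exact (csInf_le (set_bdd g) ⟨V, hV, G, hG, rfl⟩).trans h

theorem infFdom_mono : Monotone infFdom := by
  intro g g' hgg
  apply csInf_le_csInf (set_bdd g) (set_nonempty g')
  rintro x ⟨V, hV, G, hG, rfl⟩
  refine ⟨V, hV, G, ⟨hG.1, le_trans ?_ hG.2⟩, rfl⟩
  exact_mod_cast hgg

/-- For every `g` and `δ > 0` some finite graph with minimum degree `2` and girth at least `g` has
fractional domatic number at most `5/2 + δ`. So the infimum `infFdom g` of the fractional domatic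
number over these graphs is at most `5/2` for every `g`; the limit `L` of `infFdom` exists, and
`L ≤ 5/2`. -/
theorem result :
    (∀ (g : ℕ) (δ : ℝ), 0 < δ → ∃ (V : Type) (_ : Fintype V) (G : SimpleGraph V),
      InClass g G ∧ fdom G ≤ 5 / 2 + δ) ∧
    (∀ g, infFdom g ≤ 5 / 2) ∧
    ∃ L : ℝ, Tendsto infFdom atTop (nhds L) ∧ L ≤ 5 / 2 := by
  refine ⟨exists_graph, infFdom_le, ⨆ g, infFdom g, ?_, ciSup_le infFdom_le⟩
  exact tendsto_atTop_ciSup infFdom_mono ⟨5 / 2, by rintro x ⟨g, rfl⟩; exact infFdom_le g⟩

end Pool.Agent.Results.MP_cc2bbb_co.FiveHalves
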